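import Pool.Agent.MP_542436_nt.SZ.D2
import Pool.Agent.MP_542436_nt.SZ.D3
import Pool.Agent.MP_542436_nt.SZ.PAIR
import Pool.Agent.MP_542436_nt.SZ.SZ

/-! The parity of the valuations of the discriminant. -/

set_option autoImplicit false

namespace Pool.Agent.MP_542436_nt.H80S

open NumberField Polynomial Pool.Agent.MP_542436_nt.SZ

/-- the reduced product -/
def mq (n : ℕ) (x : ℤ) : ℕ :=
  ∏ p ∈ n.primeFactors, if Odd (n.factorization p) then p else if (p : ℤ) ∣ x then p ^ 2 else 1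

theorem mq_pos (n : ℕ) (x : ℤ) : 0 < mq n x :=
  Finset.prod_pos fun p hp => by
    have := (Nat.prime_of_mem_primeFactors hp).pos
    split_ifs <;> positivity

theorem odd_dvd {n p : ℕ} (x : ℤ) (h : Odd (n.factorization p)) : p ∣ mq n x := by
  have hm : p ∈ n.primeFactors := by
    rw [← Nat.support_factorization, Finsupp.mem_support_iff]
    intro h0
    rw [h0] at h
    exact absurd h (by decide)
  have := Finset.dvd_prod_of_mem (fun p : ℕ =>
    if Odd (n.factorization p) then p else if (p : ℤ) ∣ x then p ^ 2 else 1) hm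
  simp only [if_pos h] at this
  exact this

theorem even_dvd {n p : ℕ} {x : ℤ} (hm : p ∈ n.primeFactors) (h : ¬ Odd (n.factorization p))
    (hx : (p : ℤ) ∣ x) : p ^ 2 ∣ mq n x := by
  have := Finset.dvd_prod_of_mem (fun p : ℕ =>
    if Odd (n.factorization p) then p else if (p : ℤ) ∣ x then p ^ 2 else 1) hm
  simp only [if_neg h, if_pos hx] at this
  exact this

theorem par {a b m n : ℕ} (ha : a ≠ 0) (hm : m ≠ 0) (h : a ^ 2 * m = b ^ 2 * n) (p : ℕ) :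
    m.factorization p % 2 = n.factorization p % 2 := by
  have h0 : b ^ 2 * n ≠ 0 := h ▸ mul_ne_zero (pow_ne_zero _ ha) hm
  have h1 := congrArg (fun t => Nat.factorization t p) h
  simp only [Nat.factorization_mul (pow_ne_zero 2 ha) hm,
    Nat.factorization_mul (left_ne_zero_of_mul h0) (right_ne_zero_of_mul h0),
    Nat.factorization_pow, Finsupp.add_apply, Finsupp.smul_apply, smul_eq_mul] at h1
  omega

section
open D3
variable {L : Type} [Field L] [NumberField L]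

theorem sq_ds (hL : Module.finrank ℚ L = 3) {a b c d : ℤ} (hF : Fm L a b c d)
    (h0 : ds a b c d ≠ 0) : ∃ k : ℤ, ds a b c d = k ^ 2 * discr L := by
  obtain ⟨t, ht, hf⟩ := hF
  have ha : a ≠ 0 := by
    rintro rfl
    obtain ⟨h1, h2, h3⟩ := li hL ht (p := d) (q := c) (r := b) (by
      push_cast at hf ⊢; linear_combination hf)
    have h2' : c = 0 := by exact_mod_cast h2
    have h3' : b = 0 := by exact_mod_cast h3
    exact h0 (by simp [ds, h2', h3'])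
  have ha' : (a : ℚ) ≠ 0 := by exact_mod_cast ha
  obtain ⟨w, hw⟩ : ∃ w : L, w = a * t := ⟨_, rfl⟩
  obtain ⟨v, hv⟩ : ∃ v : L, v = a * t ^ 2 + b * t := ⟨_, rfl⟩
  have ww : w * w = a * v - b * w := by rw [hw, hv]; ring
  have wv : w * v = -(c * w) - a * d := by rw [hw, hv]; linear_combination (a : L) * hf
  have vv : v * v = -(c * v) - d * w - b * d := by
    rw [hw, hv]; linear_combination ((a : L) * t + b) * hf
  have hli : LinearIndependent ℚ ![(1 : L), w, v] := by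
    rw [Fintype.linearIndependent_iff]
    intro g hg
    rw [Fin.sum_univ_three] at hg
    simp only [Matrix.cons_val_zero, Matrix.cons_val_one, Matrix.cons_val, Algebra.smul_def,
      eq_ratCast] at hg
    obtain ⟨h1, h2, h3⟩ := li hL ht (p := g 0) (q := g 1 * a + g 2 * b) (r := g 2 * a) (by
      push_cast; rw [hw, hv] at hg; linear_combination hg)
    have g2 : g 2 = 0 := (mul_eq_zero.1 h3).resolve_right ha'
    rw [g2, zero_mul, add_zero] at h2
    have g1 : g 1 = 0 := (mul_eq_zero.1 h2).resolve_right ha'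
    intro i; fin_cases i <;> assumption
  let β : Module.Basis (Fin 3) ℚ L := basisOfLinearIndependentOfCardEqFinrank hli (by simp [hL])
  have hβ : ⇑β = ![(1 : L), w, v] := coe_basisOfLinearIndependentOfCardEqFinrank _ _
  have tw : Algebra.trace ℚ L w = -b := by
    rw [tr_of β w ![![0, 1, 0], ![0, -b, a], ![-(a * d), -c, 0]] (fun j => by
      rw [hβ, Fin.sum_univ_three]
      fin_cases j <;> simp [Algebra.smul_def, ww, wv] <;> ring)]
    simp [Fin.sum_univ_three]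
  have tv : Algebra.trace ℚ L v = -(2 * c) := by
    rw [tr_of β v ![![0, 0, 1], ![-(a * d), -c, 0], ![-(b * d), -d, -c]] (fun j => by
      rw [hβ, Fin.sum_univ_three]
      fin_cases j <;> simp [Algebra.smul_def, vv, mul_comm v w, wv] <;> ring)]
    simp [Fin.sum_univ_three]; ring
  have iw : IsIntegral ℤ w := by
    refine ⟨X ^ 3 + C b * X ^ 2 + C (a * c) * X + C (a ^ 2 * d), by monicity!, ?_⟩
    simp only [eval₂_add, eval₂_mul, eval₂_pow, eval₂_X, eval₂_C]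
    simp only [eq_intCast]
    push_cast
    rw [hw]; linear_combination (a : L) ^ 2 * hf
  have iv : IsIntegral ℤ v := by
    have : IsIntegral ℤ (v + c) := by
      refine ⟨X ^ 3 - C c * X ^ 2 + C (b * d) * X - C (a * d ^ 2), by monicity!, ?_⟩
      simp only [eval₂_add, eval₂_sub, eval₂_mul, eval₂_pow, eval₂_X, eval₂_C]
      simp only [eq_intCast]
      push_cast
      linear_combination (v + c) * vv - (d : L) * wv
    have h2 := this.sub (isIntegral_algebraMap (R := ℤ) (A := L) (x := c))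
    simpa using h2
  let W : 𝓞 L := ⟨w, iw⟩
  let V : 𝓞 L := ⟨v, iv⟩
  have hr : Module.finrank ℤ (𝓞 L) = 3 := by rw [RingOfIntegers.rank, hL]
  let B : Module.Basis (Fin 3) ℤ (𝓞 L) := Module.finBasisOfFinrankEq ℤ (𝓞 L) hr
  let u : Fin 3 → 𝓞 L := ![1, W, V]
  have h1 : Algebra.discr ℤ u = (B.toMatrix u).det ^ 2 * discr L := by
    rw [← discr_eq_discr L B, ← Algebra.discr_of_matrix_vecMul, Module.Basis.toMatrix_map_vecMul]
  have t1 : Algebra.trace ℤ (𝓞 L) 1 = 3 := by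
    have := Algebra.trace_algebraMap (R := ℤ) (S := 𝓞 L) 1
    rw [map_one, hr] at this
    simpa using this
  have tW : Algebra.trace ℤ (𝓞 L) W = -b := by
    have := Algebra.coe_trace_int W
    have e : ((W : 𝓞 L) : L) = w := rfl
    rw [e, tw] at this
    exact_mod_cast this
  have tV : Algebra.trace ℤ (𝓞 L) V = -(2 * c) := by
    have := Algebra.coe_trace_int V
    have e : ((V : 𝓞 L) : L) = v := rfl
    rw [e, tv] at this
    exact_mod_cast this
  have tr : ∀ (z : 𝓞 L) (p q r : ℤ), (z : L) = p + q * w + r * v →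
      Algebra.trace ℤ (𝓞 L) z = 3 * p - b * q - 2 * c * r := by
    intro z p q r hz
    have e : z = p • (1 : 𝓞 L) + q • W + r • V := by
      apply RingOfIntegers.ext
      simp only [zsmul_eq_mul, map_add, map_mul, map_intCast, map_one, mul_one]
      exact hz
    rw [e, map_add, map_add, map_zsmul, map_zsmul, map_zsmul, t1, tW, tV]
    simp only [smul_eq_mul]; ring
  have tWW := tr (W * W) 0 (-b) a (by
    change w * w = _
    rw [ww]; push_cast; ring)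
  have tWV := tr (W * V) (-(a * d)) (-c) 0 (by
    change w * v = _
    rw [wv]; push_cast; ring)
  have tVV := tr (V * V) (-(b * d)) (-d) (-c) (by
    change v * v = _
    rw [vv]; push_cast; ring)
  have h2 : Algebra.discr ℤ u = ds a b c d := by
    rw [Algebra.discr_def, Matrix.det_fin_three]
    simp only [Algebra.traceMatrix_apply, Algebra.traceForm_apply, u, Matrix.cons_val_zero,
      Matrix.cons_val_one, Matrix.cons_val, one_mul, mul_one, mul_comm V W, t1, tW, tV, tWW, tWV,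
      tVV, ds]
    ring
  exact ⟨_, by rw [← h2, h1]⟩

theorem d3 (e : L) (x y D : ℤ) (hL : Module.finrank ℚ L = 3)
    (he : e ^ 3 - 3 * x * e + 2 * y = 0) (hq : ∀ q : ℚ, e ≠ q) (hD : D ≠ 0)
    (hc : 1728 * D = x ^ 3 - y ^ 2) : (discr L).natAbs ≤ 6 ^ 5 * mq D.natAbs x := by
  have hF : Fm L 1 0 (-3 * x) (2 * y) := ⟨e, hq, by push_cast; linear_combination he⟩
  have eD : ds 1 0 (-3 * x) (2 * y) = 432 ^ 2 * D := by unfold ds; linear_combination (-108) * hc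
  have h0 : ds 1 0 (-3 * x) (2 * y) ≠ 0 := by rw [eD]; exact mul_ne_zero (by norm_num) hD
  obtain ⟨k, hk⟩ := sq_ds hL hF h0
  have hn : 432 ^ 2 * D.natAbs = k.natAbs ^ 2 * (discr L).natAbs := by
    have := congrArg Int.natAbs (eD.symm.trans hk)
    simpa [Int.natAbs_mul, Int.natAbs_pow] using this
  have hD' : D.natAbs ≠ 0 := Int.natAbs_ne_zero.2 hD
  have hd0 : (discr L).natAbs ≠ 0 := Int.natAbs_ne_zero.2 (discr_ne_zero L)
  refine Nat.le_of_dvd (Nat.mul_pos (by norm_num) (mq_pos _ _)) ?_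
  rw [Nat.dvd_iff_prime_pow_dvd_dvd]
  intro p i hp hi
  have hi' := (hp.pow_dvd_iff_le_factorization hd0).1 hi
  have hpar := par (by norm_num) hD' hn p
  have hj : p ^ (discr L).natAbs.factorization p ∣ (discr L).natAbs := Nat.ordProj_dvd _ _
  generalize (discr L).natAbs.factorization p = j at hi' hpar hj
  refine (pow_dvd_pow p hi').trans ?_
  have hj' : ∀ i, i ≤ j → (p : ℤ) ^ i ∣ discr L := fun i hi => by
    have := (pow_dvd_pow p hi).trans hj
    rw [← Int.natCast_dvd] at this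
    exact_mod_cast this
  by_cases h2 : p = 2
  · subst h2
    have : j ≤ 5 := by
      by_contra h
      exact desc hL hp (m := 6) (by norm_num) val_two _ _ _ _ _ rfl h0 hF (hj' 6 (by omega))
    exact ((pow_dvd_pow 2 this).trans (by norm_num)).mul_right _
  by_cases h3 : p = 3
  · subst h3
    have : j ≤ 5 := by
      by_contra h
      exact desc hL hp (m := 6) (by norm_num) val_three _ _ _ _ _ rfl h0 hF (hj' 6 (by omega))
    exact ((pow_dvd_pow 3 this).trans (by norm_num)).mul_right _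
  have hp' : Prime (p : ℤ) := Nat.prime_iff_prime_int.1 hp
  have n2 : ¬ (p : ℤ) ∣ 2 := fun h =>
    h2 ((Nat.prime_dvd_prime_iff_eq hp Nat.prime_two).1 (by exact_mod_cast h))
  have n3 : ¬ (p : ℤ) ∣ 3 := fun h =>
    h3 ((Nat.prime_dvd_prime_iff_eq hp Nat.prime_three).1 (by exact_mod_cast h))
  have hj2 : j ≤ 2 := by
    by_contra h
    refine desc hL hp (m := 3) (by norm_num) (fun a b c d hd hab => ?_) _ _ _ _ _ rfl h0 hF
      (hj' 3 (by omega))
    by_cases hb : (p : ℤ) ∣ b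
    · obtain ⟨b, rfl⟩ := hb
      exact val2 hp' n3 hd fun ha => hab ⟨ha, dvd_mul_right _ _⟩
    · exact fun h => val1 hp' n2 hd hb ((pow_dvd_pow _ (by norm_num)).trans h)
  refine Dvd.dvd.mul_left ?_ _
  rcases Nat.eq_zero_or_pos j with rfl | hj0
  · simp
  rcases Nat.lt_or_ge j 2 with hj1 | hj1
  · obtain rfl : j = 1 := by omega
    rw [pow_one]
    exact odd_dvd x (Nat.odd_iff.2 hpar)
  obtain rfl : j = 2 := by omega
  have hpk : (p : ℤ) ∣ D := by
    have h1 := (hj' 1 hj0).trans (dvd_ds hL hF h0)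
    rw [eD, pow_one] at h1
    refine (hp'.dvd_or_dvd h1).resolve_left fun h => ?_
    have h4 : (p : ℤ) ∣ 2 ^ 4 * 3 ^ 3 := by simpa using hp'.dvd_of_dvd_pow h
    exact (hp'.dvd_or_dvd h4).elim (fun h => n2 (hp'.dvd_of_dvd_pow h))
      fun h => n3 (hp'.dvd_of_dvd_pow h)
  have hx : (p : ℤ) ∣ x := by
    by_contra hx
    refine desc2 hL hp n2 _ _ _ _ _ rfl h0 hF (fun h => ?_) (hj' 2 le_rfl)
    have e9 : (0 : ℤ) ^ 2 - 3 * 1 * (-3 * x) = 3 ^ 2 * x := by ring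
    rw [e9] at h
    exact (hp'.dvd_or_dvd h).elim (fun h => n3 (hp'.dvd_of_dvd_pow h)) hx
  exact even_dvd (Nat.mem_primeFactors.2 ⟨hp, Int.natCast_dvd.1 hpk, hD'⟩)
    (fun h => by rw [Nat.odd_iff] at h; omega) hx

end

open D2 in
theorem d2 (x y D : ℤ) (q : ℚ) (hq : q ^ 3 - 3 * x * q + 2 * y = 0) (hD : D ≠ 0)
    (hc : 1728 * D = x ^ 3 - y ^ 2) :
    ∃ (M : Type) (_ : Field M) (_ : NumberField M) (a b c : M), Rt x y a b c ∧
      Module.finrank ℚ M ≤ 2 ∧ (discr M).natAbs ≤ 4 * mq D.natAbs x := by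
  obtain ⟨r, rfl⟩ := int_root x y q hq
  have hr : r ^ 3 - 3 * x * r + 2 * y = 0 := by exact_mod_cast hq
  set g : ℤ := 12 * x - 3 * r ^ 2 with hg
  have hgk : g * (r ^ 2 - x) ^ 2 = 144 ^ 2 * D := by
    rw [hg]
    linear_combination (-3 * (r ^ 3 - 3 * x * r - 2 * y)) * hr - 12 * hc
  have hg0 : g ≠ 0 := by
    intro h0
    rw [h0, zero_mul] at hgk
    exact hD (by linarith)
  obtain ⟨s₀, m, hm, hsq⟩ := Nat.sq_mul_squarefree g.natAbs
  have hs₀ : s₀ ≤ mq D.natAbs x := by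
    have hn : 144 ^ 2 * D.natAbs = (m * (r ^ 2 - x).natAbs) ^ 2 * s₀ := by
      have := congrArg Int.natAbs hgk
      rw [Int.natAbs_mul, Int.natAbs_mul, Int.natAbs_pow, Int.natAbs_pow, ← hm] at this
      rw [show (144 : ℕ) = (144 : ℤ).natAbs from rfl, ← this]
      ring
    refine Nat.le_of_dvd (mq_pos _ _) ?_
    rw [Nat.dvd_iff_prime_pow_dvd_dvd]
    intro p i hp hi
    have hi' := (hp.pow_dvd_iff_le_factorization hsq.ne_zero).1 hi
    have hpar := par (by norm_num) (Int.natAbs_ne_zero.2 hD) hn p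
    have h1 := hsq.natFactorization_le_one p
    rcases Nat.eq_zero_or_pos i with rfl | hi0
    · simp
    obtain rfl : i = 1 := by omega
    rw [pow_one]
    exact odd_dvd x (Nat.odd_iff.2 (by omega))
  obtain ⟨s, hs, hsm⟩ : ∃ s : ℤ, s.natAbs = s₀ ∧ (m : ℤ) ^ 2 * s = g := by
    have hm' : ((m : ℤ)) ^ 2 * (s₀ : ℤ) = (g.natAbs : ℤ) := by exact_mod_cast hm
    rcases Int.natAbs_eq g with h | h
    · exact ⟨s₀, by simp, by rw [hm', ← h]⟩
    · exact ⟨-s₀, by simp, by rw [mul_neg, hm', ← h]⟩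
  have hs0 : s ≠ 0 := by
    intro h0
    rw [h0, mul_zero] at hsm
    exact hg0 hsm.symm
  by_cases hsqr : ∃ t : ℚ, t ^ 2 = (s : ℚ)
  · obtain ⟨t, ht⟩ := hsqr
    refine ⟨ℚ, inferInstance, inferInstance, _, _, _, rt_of x y r hr ((m : ℚ) * t) ?_, ?_, ?_⟩
    · rw [← hg, ← hsm, mul_pow, ht]; push_cast; ring
    · simp
    · rw [discr_rat]
      have := mq_pos D.natAbs x
      simp only [Int.natAbs_one]
      omega
  · have hirr : Irreducible (X ^ 2 - C (s : ℚ)) :=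
      X_pow_sub_C_irreducible_of_prime Nat.prime_two (fun b hb => hsqr ⟨b, hb⟩)
    have : Fact (Irreducible (X ^ 2 - C (s : ℚ))) := ⟨hirr⟩
    have hdeg : (X ^ 2 - C (s : ℚ)).natDegree = 2 := natDegree_X_pow_sub_C
    have hfr : Module.finrank ℚ (AdjoinRoot (X ^ 2 - C (s : ℚ))) = 2 := by
      rw [(AdjoinRoot.powerBasis hirr.ne_zero).finrank, AdjoinRoot.powerBasis_dim, hdeg]
    have hθ : (AdjoinRoot.root (X ^ 2 - C (s : ℚ))) ^ 2 =
        ((s : ℤ) : AdjoinRoot (X ^ 2 - C (s : ℚ))) := by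
      have := AdjoinRoot.eval₂_root (X ^ 2 - C (s : ℚ))
      rw [eval₂_sub, eval₂_pow, eval₂_X, eval₂_C, sub_eq_zero] at this
      rw [this]
      simp
    have htr := tr_zero _ s hirr _ hθ
    refine ⟨AdjoinRoot (X ^ 2 - C (s : ℚ)), inferInstance, inferInstance, _, _, _,
      rt_of x y r hr ((m : AdjoinRoot (X ^ 2 - C (s : ℚ))) * AdjoinRoot.root _) ?_, hfr.le, ?_⟩
    · rw [← hg, ← hsm, mul_pow, hθ]; push_cast; ring
    · have := discr_le _ hfr s hs0 _ hθ htr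
      omega

theorem rd_six (x y D : ℤ) (hD : D ≠ 0) (h : 1728 * D = x ^ 3 - y ^ 2) :
    rd (x ^ 3 - y ^ 2).natAbs ≤ 6 * rd D.natAbs := by
  refine SZ.prod_le_six _ _ (fun p hp => (Nat.prime_of_mem_primeFactors hp).pos) ?_
  intro p hp
  have hpp := Nat.prime_of_mem_primeFactors hp
  have h1 : p ∣ 1728 * D.natAbs := by
    have := Nat.dvd_of_mem_primeFactors hp
    rw [← h] at this
    simpa [Int.natAbs_mul] using this
  rcases (Nat.Prime.dvd_mul hpp).1 h1 with h2 | h2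
  · rcases SZ.prime_dvd_1728 hpp h2 with h3 | h3 <;> simp [h3]
  · exact Finset.mem_union_right _ (Nat.mem_primeFactors.2 ⟨hpp, h2, Int.natAbs_ne_zero.2 hD⟩)

theorem rd_gcd (x y : ℤ) (hk : x ^ 3 ≠ y ^ 2) :
    rd (Int.gcd x y) ≤ rd (x ^ 3 - y ^ 2).natAbs := by
  refine Nat.le_of_dvd (SZ.rd_pos _) (Finset.prod_dvd_prod_of_subset _ _ _ ?_)
  refine Nat.primeFactors_mono ?_ (Int.natAbs_ne_zero.2 (sub_ne_zero.2 hk))
  rw [← Int.natCast_dvd]
  exact dvd_sub (dvd_pow (Int.gcd_dvd_left x y) (by norm_num))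
    (dvd_pow (Int.gcd_dvd_right x y) (by norm_num))

open PAIR in
theorem pair (hU : RowUNIF) (hF3 : RowF3) (hHT : RowHT) (hUN : RowUN) (ε : ℝ) (hε : 0 < ε) :
    ∃ C : ℝ, ∀ x y D : ℤ, D ≠ 0 → 1728 * D = x ^ 3 - y ^ 2 →
      Real.log ((max (|x| ^ 3) (y ^ 2) : ℤ) : ℝ) ≤ Real.log (Int.gcd (x ^ 3) (y ^ 2) : ℝ) +
        C * ((mq D.natAbs x : ℝ) ^ (1 / 2 + ε) * (rd D.natAbs : ℝ) ^ ε) := by
  obtain ⟨CU, hCU, hU⟩ := hU 9 ε hε
  obtain ⟨CH, hCH, hHT⟩ := hHT 9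
  refine ⟨CH * (1 + CU * ((6 : ℝ) ^ 5) ^ (1 / 2 + ε) * 36 ^ ε), ?_⟩
  intro x y D hD hc
  have hk : x ^ 3 ≠ y ^ 2 := fun h0 => by
    rw [h0, sub_self] at hc
    omega
  have hρ1 : 1 ≤ rd (x ^ 3 - y ^ 2).natAbs := rd_pos _
  have hr : 6 * rd (x ^ 3 - y ^ 2).natAbs ≠ 0 := by omega
  have h6 := rd_six x y D hD hc
  have M1 : (1 : ℝ) ≤ (mq D.natAbs x : ℝ) := by exact_mod_cast mq_pos _ _
  have R1 : (1 : ℝ) ≤ (rd D.natAbs : ℝ) := by exact_mod_cast rd_pos _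
  have key : ∀ (L : Type) [Field L] [NumberField L] (h : ℝ),
      (discr L).natAbs ≤ 6 ^ 5 * mq D.natAbs x →
      h ≤ CU * |(discr L : ℝ)| ^ (1 / 2 + ε) * ((6 * rd (x ^ 3 - y ^ 2).natAbs : ℕ) : ℝ) ^ ε →
      CH * (1 + h) ≤ CH * (1 + CU * ((6 : ℝ) ^ 5) ^ (1 / 2 + ε) * 36 ^ ε) *
        ((mq D.natAbs x : ℝ) ^ (1 / 2 + ε) * (rd D.natAbs : ℝ) ^ ε) := by
    intro L _ _ h hd hh
    rw [mul_assoc]
    refine mul_le_mul_of_nonneg_left ?_ hCH
    have e : |(discr L : ℝ)| = ((discr L).natAbs : ℝ) := by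
      rw [Nat.cast_natAbs, Int.cast_abs]
    have a1 : |(discr L : ℝ)| ^ (1 / 2 + ε) ≤
        ((6 : ℝ) ^ 5) ^ (1 / 2 + ε) * (mq D.natAbs x : ℝ) ^ (1 / 2 + ε) := by
      rw [← Real.mul_rpow (by norm_num) (Nat.cast_nonneg _)]
      refine Real.rpow_le_rpow (abs_nonneg _) ?_ (by linarith)
      rw [e]
      exact_mod_cast hd
    have a2 : ((6 * rd (x ^ 3 - y ^ 2).natAbs : ℕ) : ℝ) ^ ε ≤
        36 ^ ε * (rd D.natAbs : ℝ) ^ ε := by
      rw [← Real.mul_rpow (by norm_num) (Nat.cast_nonneg _)]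
      refine Real.rpow_le_rpow (Nat.cast_nonneg _) ?_ hε.le
      have : 6 * rd (x ^ 3 - y ^ 2).natAbs ≤ 36 * rd D.natAbs := by omega
      exact_mod_cast this
    have a3 : (1 : ℝ) ≤ (mq D.natAbs x : ℝ) ^ (1 / 2 + ε) * (rd D.natAbs : ℝ) ^ ε :=
      one_le_mul_of_one_le_of_one_le (Real.one_le_rpow M1 (by linarith))
        (Real.one_le_rpow R1 hε.le)
    have a4 : CU * |(discr L : ℝ)| ^ (1 / 2 + ε) *
        ((6 * rd (x ^ 3 - y ^ 2).natAbs : ℕ) : ℝ) ^ ε ≤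
        CU * (((6 : ℝ) ^ 5) ^ (1 / 2 + ε) * (mq D.natAbs x : ℝ) ^ (1 / 2 + ε)) *
          (36 ^ ε * (rd D.natAbs : ℝ) ^ ε) :=
      mul_le_mul (mul_le_mul_of_nonneg_left a1 hCU) a2 (by positivity) (by positivity)
    nlinarith
  by_cases hq : ∀ q : ℚ, q ^ 3 - 3 * x * q + 2 * y ≠ 0
  · obtain ⟨L, M, _, _, _, _, σ₁, σ₂, e, c, hL, hM, he, hrt⟩ := hF3 x y hq
    obtain ⟨-, -, h1, u1⟩ := lam hUN hrt hk
    obtain ⟨hδ, uδ⟩ := hUN.der L x y e he hk
    have hirr : ∀ q : ℚ, e ≠ q := by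
      intro q hq'
      apply hq q
      rw [hq'] at he
      exact_mod_cast he
    have hsq := ratio hrt (hUN.dif M x y _ _ _ hrt hk).1 (hUN.dif M x y _ _ _ (rt_rot hrt) hk).1
    have hh := hU L M σ₁ σ₂ (-1) (e ^ 2 - x) _ _ (by omega) hM (by norm_num) hr hδ uδ h1 u1
      (by rw [hsq]; simp)
    have := key L _ (d3 e x y D hL he hirr hD hc) hh
    have := hHT M x y _ _ _ hM hrt hk
    linarith
  · push Not at hq
    obtain ⟨q, hq⟩ := hq
    obtain ⟨M, _, _, a, b, c, hrt, hM, hd⟩ := d2 x y D q hq hD hc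
    obtain ⟨h0, u0, h1, u1⟩ := lam hUN hrt hk
    have hh := hU M M (RingHom.id M) (RingHom.id M) 0 _ _ _ (by omega) (by omega) (by norm_num) hr
      h0 u0 h1 u1 (by simp)
    have := key M _ (hd.trans (Nat.mul_le_mul_right _ (by norm_num))) hh
    have := hHT M x y _ _ _ (by omega) hrt hk
    linarith

theorem top (hU : RowUNIF) (hF3 : RowF3) (hHT : RowHT) (hUN : RowUN) :
    ∀ ε : ℝ, 0 < ε → ∃ C : ℝ, ∀ W : WeierstrassCurve ℤ, W.Δ ≠ 0 →
    (∀ (W' : WeierstrassCurve ℤ) (T : WeierstrassCurve.VariableChange ℚ),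
      W'.map (Int.castRingHom ℚ) = T • W.map (Int.castRingHom ℚ) → |W.Δ| ≤ |W'.Δ|) →
    Real.log ((max (|W.c₄| ^ 3) (W.c₆ ^ 2) : ℤ) : ℝ) ≤
      C * (∏ p ∈ W.Δ.natAbs.primeFactors, if Odd (W.Δ.natAbs.factorization p) then (p : ℝ)
        else if (p : ℤ) ∣ W.c₄ then (p : ℝ) ^ 2 else 1) ^ (1 / 2 + ε) *
        (∏ p ∈ W.Δ.natAbs.primeFactors, (p : ℝ)) ^ ε := by
  intro ε hε
  obtain ⟨C, hC⟩ := pair hU hF3 hHT hUN ε hε
  refine ⟨35 * 6 ^ ε / ε + C, fun W hΔ hmin => ?_⟩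
  have hc := W.c_relation
  have hxy : W.c₄ ^ 3 ≠ W.c₆ ^ 2 := by
    intro h0
    rw [h0, sub_self] at hc
    omega
  have h1 := hC W.c₄ W.c₆ W.Δ hΔ hc
  have h3 := SZ.gcd_le W.c₄ W.c₆ hxy (by
    intro p hp h12 h18
    obtain ⟨X, hX⟩ := h12
    obtain ⟨Y, hY⟩ := h18
    have hp2 : (2 : ℤ) ≤ p := by exact_mod_cast hp.two_le
    have := SZ.min_le W hΔ hmin ((p : ℤ) ^ 3) X Y (by positivity)
      (by rw [hX]; ring) (by rw [hY]; ring)
    have h8 : (2 : ℤ) ^ 3 ≤ (p : ℤ) ^ 3 := pow_le_pow_left₀ (by norm_num) hp2 3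
    omega)
  have c1 : ((mq W.Δ.natAbs W.c₄ : ℕ) : ℝ) = ∏ p ∈ W.Δ.natAbs.primeFactors,
      if Odd (W.Δ.natAbs.factorization p) then (p : ℝ)
        else if (p : ℤ) ∣ W.c₄ then (p : ℝ) ^ 2 else 1 := by
    rw [mq, Nat.cast_prod]
    refine Finset.prod_congr rfl fun p _ => ?_
    split_ifs <;> simp
  have c2 : ((rd W.Δ.natAbs : ℕ) : ℝ) = ∏ p ∈ W.Δ.natAbs.primeFactors, (p : ℝ) := by
    rw [rd, Nat.cast_prod]
  rw [← c1, ← c2]
  have h4 := (rd_gcd _ _ hxy).trans (rd_six _ _ _ hΔ hc)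
  have M1 : (1 : ℝ) ≤ (mq W.Δ.natAbs W.c₄ : ℝ) := by exact_mod_cast mq_pos _ _
  have a0 : (1 : ℝ) ≤ (mq W.Δ.natAbs W.c₄ : ℝ) ^ (1 / 2 + ε) := Real.one_le_rpow M1 (by linarith)
  have hg0 : 0 < Int.gcd (W.c₄ ^ 3) (W.c₆ ^ 2) := by
    refine Nat.pos_of_ne_zero fun h0 => ?_
    obtain ⟨a1, a2⟩ := Int.gcd_eq_zero_iff.1 h0
    exact hxy (a1.trans a2.symm)
  have h11 : Real.log (Int.gcd (W.c₄ ^ 3) (W.c₆ ^ 2) : ℝ) ≤
      35 * Real.log (6 * (rd W.Δ.natAbs : ℝ)) := by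
    have a1 : ((Int.gcd (W.c₄ ^ 3) (W.c₆ ^ 2) : ℕ) : ℝ) ≤ (6 * (rd W.Δ.natAbs : ℝ)) ^ 35 := by
      exact_mod_cast h3.trans (Nat.pow_le_pow_left h4 35)
    have a2 : (0 : ℝ) < ((Int.gcd (W.c₄ ^ 3) (W.c₆ ^ 2) : ℕ) : ℝ) := by exact_mod_cast hg0
    have a3 := Real.log_le_log a2 a1
    rw [Real.log_pow] at a3
    exact_mod_cast a3
  have h9 := Real.log_le_rpow_div (x := 6 * (rd W.Δ.natAbs : ℝ)) (by positivity) hε
  rw [Real.mul_rpow (by norm_num) (Nat.cast_nonneg _)] at h9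
  obtain ⟨A, hA⟩ : ∃ A, A = (mq W.Δ.natAbs W.c₄ : ℝ) ^ (1 / 2 + ε) := ⟨_, rfl⟩
  obtain ⟨B, hB⟩ : ∃ B, B = (rd W.Δ.natAbs : ℝ) ^ ε := ⟨_, rfl⟩
  have B0 : 0 ≤ B := by rw [hB]; positivity
  rw [← hA] at a0 h1 ⊢
  rw [← hB] at h9 h1 ⊢
  have k0 : (0 : ℝ) ≤ 35 * 6 ^ ε / ε * B := by positivity
  have k1 : 35 * 6 ^ ε / ε * B ≤ 35 * 6 ^ ε / ε * B * A := le_mul_of_one_le_right k0 a0
  have k2 : 35 * ((6 : ℝ) ^ ε * B / ε) = 35 * 6 ^ ε / ε * B := by ring
  nlinarith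

end Pool.Agent.MP_542436_nt.H80S
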